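import Mathlib
import Pool.Agent.Lib.MP_6bc78b_nt.MS.P3.Iface

/-! Project MS, Part III, module R4: `NN` as a line integral of `SM`. -/

set_option autoImplicit false

open Complex Filter Topology MeasureTheory ArithmeticFunction

namespace Pool.Agent.Lib.MP_6bc78b_nt.MS.P3.H62

lemma ln_re (u : ℝ) : (ln u).re = 2 := by simp [ln]

lemma ln_div_re (u L : ℝ) : (ln u / (L : ℂ)).re = 2 / L := by
  rw [Complex.div_ofReal_re, ln_re]

lemma continuous_ln : Continuous ln := by
  unfold ln; fun_prop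

lemma smt_zero (s v w : ℂ) (a : Fin 3 → ℂ) : smt 0 s v w a = 0 := by
  unfold smt; simp

lemma norm_smt_eq (m : ℕ) (s v v' w : ℂ) (a : Fin 3 → ℂ) (h : v.re = v'.re) :
    ‖smt m s v w a‖ = ‖smt m s v' w a‖ := by
  rcases Nat.eq_zero_or_pos m with h0 | hm
  · subst h0; rw [smt_zero, smt_zero]
  · unfold smt
    rw [norm_mul, norm_mul, norm_mul, norm_mul, Complex.norm_natCast_cpow_of_pos hm,
      Complex.norm_natCast_cpow_of_pos hm]
    simp only [sub_re, one_re, h]

lemma smt_continuous (m : ℕ) (s w : ℂ) (a : Fin 3 → ℂ) (L : ℝ) :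
    Continuous (fun u : ℝ => smt m s (ln u / (L : ℂ)) w a) := by
  rcases Nat.eq_zero_or_pos m with h0 | hm
  · subst h0
    simp only [smt_zero]
    exact continuous_const
  · unfold smt
    have hm0 : (m : ℂ) ≠ 0 := by exact_mod_cast hm.ne'
    have h1 : Continuous (fun u : ℝ => s - 1 - ln u / (L : ℂ)) :=
      (continuous_const.sub (continuous_ln.div_const _))
    have h2 : Continuous (fun u : ℝ => (m : ℂ) ^ (s - 1 - ln u / (L : ℂ))) :=
      h1.const_cpow (Or.inl hm0)
    exact (continuous_const.mul h2).mul continuous_const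

/-- Module R4. -/
theorem r4 (hbl : BlStatement) (hsme : SmeStatement) : R4Statement := by
  intro th c1 c2 hth0 hth
  refine ⟨Real.exp 200, ?_⟩
  intro T hT Z hZ A hA W hW
  have hT0 : 0 < T := lt_of_lt_of_le (Real.exp_pos _) hT
  have hL : 200 ≤ Real.log T := (Real.le_log_iff_exp_le hT0).2 hT
  have hT1 : 1 < T := by
    have : 0 < Real.log T := by linarith
    by_contra h
    have := Real.log_nonpos hT0.le (not_lt.1 h)
    linarith
  set L := Real.log T with hLdef
  have hL0 : 0 < L := by linarith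
  set s : ℂ := 1 + Z / (L : ℂ) with hs
  set w : ℂ := W / (L : ℂ) with hw
  set a : Fin 3 → ℂ := sc T A with ha
  -- the region
  have hs1 : s - 1 = Z / (L : ℂ) := by rw [hs]; ring
  have hZn : ‖Z‖ ≤ 1 := by
    have h1 := hZ.1
    have h2 := hZ.2.1
    calc ‖Z‖ ≤ |Z.re| + |Z.im| := Complex.norm_le_abs_re_add_abs_im Z
      _ ≤ 1 / 2 + 1 / 2 := add_le_add h1 h2
      _ = 1 := by norm_num
  have hZre : Z.re ≤ 1 / 2 := le_trans (le_abs_self _) hZ.1
  have hai : ∀ i, a i = A i / (L : ℂ) := fun i => rfl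
  have hwre : w.re = 2 / L := by rw [hw, Complex.div_ofReal_re, hW]
  have h2L : 2 / L ≤ 1 / 100 := by
    rw [div_le_div_iff₀ hL0 (by norm_num)]; linarith
  have h2L0 : 0 < 2 / L := by positivity
  have hreg : ∀ v : ℂ, v.re = 2 / L → Reg s v w a := by
    intro v hv
    refine ⟨?_, ?_, ?_, ?_⟩
    · rw [hs1, norm_div, Complex.norm_real, Real.norm_eq_abs, abs_of_pos hL0,
        div_le_div_iff₀ hL0 (by norm_num)]
      linarith
    · intro i
      rw [hai, norm_div, Complex.norm_real, Real.norm_eq_abs, abs_of_pos hL0,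
        div_le_div_iff₀ hL0 (by norm_num)]
      have := hA i
      linarith
    · rw [hv, abs_of_pos h2L0]; exact h2L
    · rw [hwre, abs_of_pos h2L0]; exact h2L
  have hs1re : (s - 1).re < 2 / L := by
    rw [hs1, Complex.div_ofReal_re]
    exact div_lt_div_of_pos_right (by linarith) hL0
  have hare : ∀ i, -(a i).re < 2 / L := by
    intro i
    rw [hai, Complex.div_ofReal_re, ← neg_div]
    apply div_lt_div_of_pos_right _ hL0
    have h1 := hA i
    have h2 := Complex.abs_re_le_norm (A i)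
    have h3 := neg_abs_le (A i).re
    linarith
  have hv0 : (ln 0 / (L : ℂ)).re = 2 / L := ln_div_re 0 L
  have hsum : Summable (fun m : ℕ => ‖smt m s (ln 0 / (L : ℂ)) w a‖) :=
    (hsme s (ln 0 / (L : ℂ)) w a (hreg _ hv0) (by rw [hv0]; exact h2L0)
      (by rw [hwre]; exact h2L0) (by rw [hv0]; exact hs1re) (fun i => by rw [hv0]; exact hare i)).1
  have hnorm : ∀ (m : ℕ) (u : ℝ), ‖smt m s (ln u / (L : ℂ)) w a‖ =
      ‖smt m s (ln 0 / (L : ℂ)) w a‖ := fun m u =>
    norm_smt_eq m s _ _ w a (by rw [ln_div_re, ln_div_re])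
  have hSMc : Continuous (fun u : ℝ => SM s (ln u / (L : ℂ)) w a) := by
    unfold SM
    exact continuous_tsum (fun m => smt_continuous m s w a L) hsum
      (fun m u => (hnorm m u).le)
  refine ⟨hSMc.aestronglyMeasurable, ?_⟩
  -- the exchange
  set P : ℝ → ℂ := fun u => PH th c1 c2 (ln u) * Complex.exp (th * ln u) with hP
  have hPint : Integrable P := by
    have h := (hbl th c1 c2 T hth0 hT1 1 one_ne_zero).1
    simpa using h
  set g : ℕ → ℝ → ℂ := fun m u => P u * smt m s (ln u / (L : ℂ)) w a with hg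
  have hsplit : ∀ (m : ℕ), m ≠ 0 → ∀ u : ℝ, g m u =
      (((ArithmeticFunction.moebius m : ℤ) : ℂ) * (m : ℂ) ^ (s - 1) * fm m s a w) *
        (PH th c1 c2 (ln u) * Complex.exp (th * ln u) * (m : ℂ) ^ (-(ln u / (L : ℂ)))) := by
    intro m hm u
    rw [hg, hP]
    simp only
    unfold smt
    have hm0 : (m : ℂ) ≠ 0 := by exact_mod_cast hm
    rw [sub_eq_add_neg (s - 1) (ln u / (L : ℂ)), Complex.cpow_add _ _ hm0]
    ring
  have hgint : ∀ m, Integrable (g m) := by
    intro m
    rcases Nat.eq_zero_or_pos m with h0 | hm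
    · subst h0
      have : g 0 = fun _ => 0 := by
        funext u; rw [hg]; simp only [smt_zero, mul_zero]
      rw [this]; exact integrable_zero _ _ _
    · have h := ((hbl th c1 c2 T hth0 hT1 m hm.ne').1).const_mul
        (((ArithmeticFunction.moebius m : ℤ) : ℂ) * (m : ℂ) ^ (s - 1) * fm m s a w)
      exact h.congr (Filter.Eventually.of_forall (fun u => (hsplit m hm.ne' u).symm))
  have hgn : ∀ m, ∫ u, ‖g m u‖ = (∫ u, ‖P u‖) * ‖smt m s (ln 0 / (L : ℂ)) w a‖ := by
    intro m
    rw [← integral_mul_const]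
    congr 1
    funext u
    rw [hg]
    simp only
    rw [norm_mul, hnorm]
  have hgsum : Summable (fun m => ∫ u, ‖g m u‖) := by
    simp only [hgn]
    exact hsum.mul_left _
  have hex := hasSum_integral_of_summable_integral_norm hgint hgsum
  have htsum : ∀ u : ℝ, ∑' m, g m u = PH th c1 c2 (ln u) * Complex.exp (th * ln u) *
      SM s (ln u / (L : ℂ)) w a := by
    intro u
    rw [hg]
    simp only
    rw [tsum_mul_left]
    rfl
  simp only [htsum] at hex
  -- the terms
  have hterm : ∀ m : ℕ, m ≠ 0 → ((2 * Real.pi : ℝ) : ℂ)⁻¹ * ∫ u, g m u =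
      (betf th c1 c2 T m : ℂ) * (m : ℂ) ^ (s - 1) * fm m s a w := by
    intro m hm
    have h1 : ∫ u, g m u = (((ArithmeticFunction.moebius m : ℤ) : ℂ) * (m : ℂ) ^ (s - 1) *
        fm m s a w) * ∫ u : ℝ, (PH th c1 c2 (ln u) * Complex.exp (th * ln u) *
          (m : ℂ) ^ (-(ln u / (L : ℂ)))) := by
      rw [← integral_const_mul]
      congr 1
      funext u
      exact hsplit m hm u
    rw [h1, (hbl th c1 c2 T hth0 hT1 m hm).2]
    ring
  have hzero : ∫ u, g 0 u = 0 := by
    have : g 0 = fun _ => 0 := by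
      funext u; rw [hg]; simp only [smt_zero, mul_zero]
    rw [this]; simp
  rw [← hex.tsum_eq, ← tsum_mul_left]
  rw [tsum_eq_sum (s := Finset.Icc 1 ⌊T ^ th⌋₊)]
  · unfold NN
    refine Finset.sum_congr rfl (fun m hm => ?_)
    have hm0 : m ≠ 0 := by
      have := (Finset.mem_Icc.1 hm).1
      omega
    exact (hterm m hm0).symm
  · intro m hm
    rcases Nat.eq_zero_or_pos m with h0 | hpos
    · subst h0; rw [hzero, mul_zero]
    · rw [hterm m hpos.ne']
      have hb : betf th c1 c2 T m = 0 := by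
        unfold betf
        rw [if_neg]
        intro h
        apply hm
        rw [Finset.mem_Icc]
        exact ⟨hpos, Nat.le_floor h⟩
      rw [hb]
      simp

end Pool.Agent.Lib.MP_6bc78b_nt.MS.P3.H62
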