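import Mathlib
import Pool.Agent.Lib.MP_6bc78b_nt.MS.P3.Iface

/-! Project MS, Part III, module SQ: from the line `Re s = 2` to a small square and the line
`Re s = 3/4`. -/

set_option autoImplicit false

open Complex Filter Topology MeasureTheory

namespace Pool.Agent.Lib.MP_6bc78b_nt.MS.P3.H62

lemma decay_integrable (K : ℝ) : Integrable (fun t : ℝ => K / (1 + |t|) ^ (3 / 2 : ℝ)) := by
  have h := (integrable_one_add_norm (E := ℝ) (μ := volume) (r := 3 / 2) (by
    rw [Module.finrank_self]; norm_num)).const_mul K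
  refine h.congr (Filter.Eventually.of_forall (fun t => ?_))
  simp only [Real.norm_eq_abs]
  rw [Real.rpow_neg (by positivity)]
  exact (div_eq_mul_inv _ _).symm

/-- Module SQ. -/
theorem sq : SqStatement := by
  intro f ℓ K hℓ hf
  set r := 1 / (2 * ℓ) with hr
  have hℓ0 : 0 < ℓ := by linarith
  have hr0 : 0 < r := by positivity
  have hr8 : r ≤ 1 / 8 := by
    rw [hr]
    apply one_div_le_one_div_of_le (by norm_num)
    linarith
  -- points
  have hfd : ∀ x y : ℝ, 3 / 4 ≤ x → x ≤ 2 → (r ≤ |x - 1| ∨ r ≤ |y|) →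
      DifferentiableAt ℂ f (x + y * I) ∧ ‖f (x + y * I)‖ ≤ K / (1 + |y|) ^ (3 / 2 : ℝ) := by
    intro x y h1 h2 h3
    have h := hf (x + y * I)
    simp only [add_re, ofReal_re, mul_re, I_re, mul_zero, ofReal_im, I_im, mul_one, sub_self,
      add_zero, add_im, mul_im, zero_add] at h
    exact h h1 h2 h3
  -- continuity on vertical and horizontal lines
  have hvert : ∀ x : ℝ, 3 / 4 ≤ x → x ≤ 2 → r ≤ |x - 1| → Continuous (fun y : ℝ => f (x + y * I)) := by
    intro x h1 h2 h3
    rw [continuous_iff_continuousAt]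
    intro y
    have h4 := (hfd x y h1 h2 (Or.inl h3)).1.continuousAt
    have h5 : ContinuousAt (fun y : ℝ => (x : ℂ) + y * I) y := by fun_prop
    exact ContinuousAt.comp (f := fun y : ℝ => (x : ℂ) + y * I) h4 h5
  have hvertOn : ∀ x c d : ℝ, 3 / 4 ≤ x → x ≤ 2 → (∀ y ∈ Set.uIcc c d, r ≤ |x - 1| ∨ r ≤ |y|) →
      IntervalIntegrable (fun y : ℝ => f (x + y * I)) volume c d := by
    intro x c d h1 h2 h3
    apply ContinuousOn.intervalIntegrable
    intro y hy
    have h4 := (hfd x y h1 h2 (h3 y hy)).1.continuousAt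
    have h5 : ContinuousAt (fun y : ℝ => (x : ℂ) + y * I) y := by fun_prop
    exact (ContinuousAt.comp (f := fun y : ℝ => (x : ℂ) + y * I) h4 h5).continuousWithinAt
  have hhorOn : ∀ y c d : ℝ, 3 / 4 ≤ c → c ≤ d → d ≤ 2 → r ≤ |y| →
      IntervalIntegrable (fun x : ℝ => f (x + y * I)) volume c d := by
    intro y c d h1 h2 h3 h4
    apply ContinuousOn.intervalIntegrable
    rw [Set.uIcc_of_le h2]
    intro x hx
    have h5 := (hfd x y (by linarith [hx.1]) (by linarith [hx.2]) (Or.inr h4)).1.continuousAt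
    have h6 : ContinuousAt (fun x : ℝ => (x : ℂ) + y * I) x := by fun_prop
    exact (ContinuousAt.comp (f := fun x : ℝ => (x : ℂ) + y * I) h5 h6).continuousWithinAt
  have hint : ∀ x : ℝ, 3 / 4 ≤ x → x ≤ 2 → r ≤ |x - 1| →
      Integrable (fun y : ℝ => f (x + y * I)) := by
    intro x h1 h2 h3
    refine (decay_integrable K).mono' (hvert x h1 h2 h3).aestronglyMeasurable ?_
    exact Filter.Eventually.of_forall (fun y => (hfd x y h1 h2 (Or.inl h3)).2)
  have hi2 : Integrable (fun t : ℝ => f (2 + t * I)) := by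
    have := hint 2 (by norm_num) le_rfl (by rw [abs_of_nonneg (by norm_num)]; linarith)
    simpa using this
  have hi34 : Integrable (fun t : ℝ => f (3 / 4 + t * I)) := by
    have := hint (3 / 4) le_rfl (by norm_num) (by rw [abs_of_nonpos (by norm_num)]; linarith)
    have e : (fun y : ℝ => f (((3 / 4 : ℝ) : ℂ) + y * I)) = fun t : ℝ => f (3 / 4 + t * I) := by
      funext t; push_cast; rfl
    rwa [e] at this
  refine ⟨hi2, hi34, ?_⟩
  -- Cauchy on a rectangle
  have hrect : ∀ a b c d : ℝ, a ≤ b → c ≤ d → 3 / 4 ≤ a → b ≤ 2 →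
      (∀ x ∈ Set.Icc a b, ∀ y ∈ Set.Icc c d, r ≤ |x - 1| ∨ r ≤ |y|) →
      (∫ x in a..b, f (x + c * I)) - (∫ x in a..b, f (x + d * I)) +
        I * (∫ y in c..d, f (b + y * I)) - I * (∫ y in c..d, f (a + y * I)) = 0 := by
    intro a b c d hab hcd ha hb hcond
    have h := Complex.integral_boundary_rect_eq_zero_of_differentiableOn f
      ((a : ℂ) + c * I) ((b : ℂ) + d * I) (by
        intro s hs
        simp only [add_re, ofReal_re, mul_re, I_re, mul_zero, ofReal_im, I_im, mul_one, sub_self,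
          add_zero, add_im, mul_im, zero_add] at hs
        rw [Complex.mem_reProdIm, Set.uIcc_of_le hab, Set.uIcc_of_le hcd] at hs
        have h1 := (hf s (by linarith [hs.1.1]) (by linarith [hs.1.2])
          (hcond s.re hs.1 s.im hs.2)).1
        exact h1.differentiableWithinAt)
    simp only [add_re, ofReal_re, mul_re, I_re, mul_zero, ofReal_im, I_im, mul_one, sub_self,
      add_zero, add_im, mul_im, zero_add, smul_eq_mul] at h
    exact h
  -- the square in the variable s
  set S : ℂ := (∫ x in (1 - r)..(1 + r), f (x + (-r : ℝ) * I)) -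
    (∫ x in (1 - r)..(1 + r), f (x + (r : ℝ) * I)) +
    I * (∫ y in (-r)..r, f (((1 + r : ℝ) : ℂ) + y * I)) -
    I * (∫ y in (-r)..r, f (((1 - r : ℝ) : ℂ) + y * I)) with hS
  -- identity for finite height
  have hR : ∀ R : ℝ, r ≤ R →
      I * ((∫ y in (-R)..R, f (((2 : ℝ) : ℂ) + y * I)) -
        ∫ y in (-R)..R, f (((3 / 4 : ℝ) : ℂ) + y * I)) =
      S + ((∫ x in (3 / 4 : ℝ)..2, f (x + (R : ℝ) * I)) -
        ∫ x in (3 / 4 : ℝ)..2, f (x + (-R : ℝ) * I)) := by
    intro R hR
    have hR0 : 0 ≤ R := by linarith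
    have hA := hrect (3 / 4) (1 - r) (-R) R (by linarith) (by linarith) le_rfl (by linarith)
      (fun x hx y _ => Or.inl (by
        rw [abs_of_nonpos (by linarith [hx.2])]; linarith [hx.2]))
    have hB := hrect (1 + r) 2 (-R) R (by linarith) (by linarith) (by linarith) le_rfl
      (fun x hx y _ => Or.inl (by
        rw [abs_of_nonneg (by linarith [hx.1])]; linarith [hx.1]))
    have hC := hrect (1 - r) (1 + r) r R (by linarith) hR (by linarith) (by linarith)
      (fun x _ y hy => Or.inr (by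
        rw [abs_of_nonneg (by linarith [hy.1])]; exact hy.1))
    have hD := hrect (1 - r) (1 + r) (-R) (-r) (by linarith) (by linarith) (by linarith)
      (by linarith)
      (fun x _ y hy => Or.inr (by
        rw [abs_of_nonpos (by linarith [hy.2])]; linarith [hy.2]))
    -- splitting of the horizontal integrals
    have hH : ∀ y : ℝ, r ≤ |y| → (∫ x in (3 / 4 : ℝ)..2, f (x + y * I)) =
        (∫ x in (3 / 4 : ℝ)..(1 - r), f (x + y * I)) + (∫ x in (1 - r)..(1 + r), f (x + y * I)) +
          ∫ x in (1 + r)..2, f (x + y * I) := by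
      intro y hy
      rw [intervalIntegral.integral_add_adjacent_intervals
          (hhorOn y _ _ le_rfl (by linarith) (by linarith) hy)
          (hhorOn y _ _ (by linarith) (by linarith) (by linarith) hy),
        intervalIntegral.integral_add_adjacent_intervals
          (hhorOn y _ _ le_rfl (by linarith) (by linarith) hy)
          (hhorOn y _ _ (by linarith) (by linarith) (by linarith) hy)]
    have hV : ∀ x : ℝ, 3 / 4 ≤ x → x ≤ 2 → r ≤ |x - 1| → (∫ y in (-R)..R, f ((x : ℂ) + y * I)) =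
        (∫ y in (-R)..(-r), f ((x : ℂ) + y * I)) + (∫ y in (-r)..r, f ((x : ℂ) + y * I)) +
          ∫ y in r..R, f ((x : ℂ) + y * I) := by
      intro x h1 h2 h3
      have hi : ∀ c d : ℝ, IntervalIntegrable (fun y : ℝ => f ((x : ℂ) + y * I)) volume c d :=
        fun c d => hvertOn x c d h1 h2 (fun y _ => Or.inl h3)
      rw [intervalIntegral.integral_add_adjacent_intervals (hi _ _) (hi _ _),
        intervalIntegral.integral_add_adjacent_intervals (hi _ _) (hi _ _)]
    have hR1 : r ≤ |R| := by rw [abs_of_nonneg hR0]; exact hR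
    have hR2 : r ≤ |-R| := by rw [abs_neg]; exact hR1
    have hV1 := hV (1 + r) (by linarith) (by linarith) (by
      rw [abs_of_nonneg (by linarith)]; linarith)
    have hV2 := hV (1 - r) (by linarith) (by linarith) (by
      rw [abs_of_nonpos (by linarith)]; linarith)
    rw [hH R hR1, hH (-R) hR2, hS]
    rw [hV2] at hA
    rw [hV1] at hB
    linear_combination hA + hB + hC + hD
  -- limits
  have hlim2 : Tendsto (fun R : ℝ => ∫ y in (-R)..R, f (((2 : ℝ) : ℂ) + y * I)) atTop
      (𝓝 (∫ t : ℝ, f (2 + t * I))) := by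
    have := intervalIntegral_tendsto_integral (μ := volume) hi2
      (a := fun R : ℝ => -R) (b := fun R : ℝ => R) tendsto_neg_atTop_atBot tendsto_id
    simpa using this
  have hlim34 : Tendsto (fun R : ℝ => ∫ y in (-R)..R, f (((3 / 4 : ℝ) : ℂ) + y * I)) atTop
      (𝓝 (∫ t : ℝ, f (3 / 4 + t * I))) := by
    have := intervalIntegral_tendsto_integral (μ := volume) hi34
      (a := fun R : ℝ => -R) (b := fun R : ℝ => R) tendsto_neg_atTop_atBot tendsto_id
    have e : (fun y : ℝ => f (((3 / 4 : ℝ) : ℂ) + y * I)) = fun t : ℝ => f (3 / 4 + t * I) := by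
      funext t; push_cast; rfl
    rw [e]
    exact this
  have hdec : Tendsto (fun R : ℝ => K / (1 + |R|) ^ (3 / 2 : ℝ) * |2 - 3 / 4|) atTop (𝓝 0) := by
    have h1 : Tendsto (fun R : ℝ => (1 + |R|) ^ (3 / 2 : ℝ)) atTop atTop := by
      apply (tendsto_rpow_atTop (by norm_num : (0 : ℝ) < 3 / 2)).comp
      exact tendsto_atTop_add_const_left _ _ tendsto_abs_atTop_atTop
    have h2 := (h1.const_div_atTop K).mul_const |(2 : ℝ) - 3 / 4|
    rwa [zero_mul] at h2
  have hhor : ∀ σ : ℝ, (σ = 1 ∨ σ = -1) →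
      Tendsto (fun R : ℝ => ∫ x in (3 / 4 : ℝ)..2, f (x + (σ * R : ℝ) * I)) atTop (𝓝 0) := by
    intro σ hσ
    apply squeeze_zero_norm' _ hdec
    filter_upwards [eventually_ge_atTop r] with R hRr
    have hR0 : 0 ≤ R := by linarith
    have habs : |σ * R| = |R| := by
      rcases hσ with h | h <;> rw [h] <;> simp
    refine intervalIntegral.norm_integral_le_of_norm_le_const (fun x hx => ?_)
    rw [Set.uIoc_of_le (by norm_num)] at hx
    have := (hfd x (σ * R) hx.1.le hx.2 (Or.inr (by rw [habs, abs_of_nonneg hR0]; exact hRr))).2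
    rw [habs] at this
    exact this
  have hfin : I * ((∫ t : ℝ, f (2 + t * I)) - ∫ t : ℝ, f (3 / 4 + t * I)) = S := by
    have h1 : Tendsto (fun R : ℝ => I * ((∫ y in (-R)..R, f (((2 : ℝ) : ℂ) + y * I)) -
        ∫ y in (-R)..R, f (((3 / 4 : ℝ) : ℂ) + y * I))) atTop
        (𝓝 (I * ((∫ t : ℝ, f (2 + t * I)) - ∫ t : ℝ, f (3 / 4 + t * I)))) :=
      (hlim2.sub hlim34).const_mul I
    have h2 : Tendsto (fun R : ℝ => S + ((∫ x in (3 / 4 : ℝ)..2, f (x + (R : ℝ) * I)) -
        ∫ x in (3 / 4 : ℝ)..2, f (x + (-R : ℝ) * I))) atTop (𝓝 (S + (0 - 0))) := by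
      refine tendsto_const_nhds.add ((?_ : Tendsto _ _ _).sub (?_ : Tendsto _ _ _))
      · have := hhor 1 (Or.inl rfl)
        simpa using this
      · have := hhor (-1) (Or.inr rfl)
        simpa using this
    have h3 : (fun R : ℝ => I * ((∫ y in (-R)..R, f (((2 : ℝ) : ℂ) + y * I)) -
        ∫ y in (-R)..R, f (((3 / 4 : ℝ) : ℂ) + y * I))) =ᶠ[atTop]
        (fun R : ℝ => S + ((∫ x in (3 / 4 : ℝ)..2, f (x + (R : ℝ) * I)) -
        ∫ x in (3 / 4 : ℝ)..2, f (x + (-R : ℝ) * I))) := by
      filter_upwards [eventually_ge_atTop r] with R hRr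
      exact hR R hRr
    have h4 := tendsto_nhds_unique (h1.congr' h3) h2
    rw [h4]; ring
  -- change of variables on the square
  have hsq : (ℓ : ℂ)⁻¹ * sqI (fun Z => f (1 + Z / ℓ)) = S := by
    have hℓc : (ℓ : ℂ) ≠ 0 := by exact_mod_cast hℓ0.ne'
    have hr2 : (1 / 2 : ℝ) / ℓ = r := by rw [hr]; field_simp
    have hr3 : (-(1 / 2) : ℝ) / ℓ = -r := by rw [hr]; field_simp
    have hrc : (r : ℂ) = 1 / (2 * ℓ) := by rw [hr]; push_cast; ring
    have e1 : ∫ x in (-(1 / 2) : ℝ)..(1 / 2), f (1 + ((x : ℂ) - I / 2) / ℓ) =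
        ℓ * ∫ x in (1 - r)..(1 + r), f (x + (-r : ℝ) * I) := by
      have h := intervalIntegral.integral_comp_add_div (a := -(1 / 2)) (b := 1 / 2)
        (fun x : ℝ => f (x + (-r : ℝ) * I)) hℓ0.ne' 1
      rw [hr2, hr3] at h
      rw [real_smul] at h
      rw [show (1 : ℝ) - r = 1 + -r by ring, ← h]
      congr 1
      funext x
      congr 1
      push_cast
      rw [hrc]
      field_simp
      ring
    have e2 : ∫ x in (-(1 / 2) : ℝ)..(1 / 2), f (1 + ((x : ℂ) + I / 2) / ℓ) =
        ℓ * ∫ x in (1 - r)..(1 + r), f (x + (r : ℝ) * I) := by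
      have h := intervalIntegral.integral_comp_add_div (a := -(1 / 2)) (b := 1 / 2)
        (fun x : ℝ => f (x + (r : ℝ) * I)) hℓ0.ne' 1
      rw [hr2, hr3] at h
      rw [real_smul] at h
      rw [show (1 : ℝ) - r = 1 + -r by ring, ← h]
      congr 1
      funext x
      congr 1
      push_cast
      rw [hrc]
      field_simp
      ring
    have e3 : ∫ y in (-(1 / 2) : ℝ)..(1 / 2), f (1 + (1 / 2 + (y : ℂ) * I) / ℓ) =
        ℓ * ∫ y in (-r)..r, f (((1 + r : ℝ) : ℂ) + y * I) := by
      have h := intervalIntegral.integral_comp_div (a := -(1 / 2)) (b := 1 / 2)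
        (fun y : ℝ => f (((1 + r : ℝ) : ℂ) + y * I)) hℓ0.ne'
      rw [hr2, hr3] at h
      rw [real_smul] at h
      rw [← h]
      congr 1
      funext x
      congr 1
      push_cast
      rw [hrc]
      field_simp
      ring
    have e4 : ∫ y in (-(1 / 2) : ℝ)..(1 / 2), f (1 + (-(1 / 2) + (y : ℂ) * I) / ℓ) =
        ℓ * ∫ y in (-r)..r, f (((1 - r : ℝ) : ℂ) + y * I) := by
      have h := intervalIntegral.integral_comp_div (a := -(1 / 2)) (b := 1 / 2)
        (fun y : ℝ => f (((1 - r : ℝ) : ℂ) + y * I)) hℓ0.ne'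
      rw [hr2, hr3] at h
      rw [real_smul] at h
      rw [← h]
      congr 1
      funext x
      congr 1
      push_cast
      rw [hrc]
      field_simp
      ring
    unfold sqI
    rw [e1, e2, e3, e4, hS]
    field_simp
  have hπ : (Real.pi : ℂ) ≠ 0 := by exact_mod_cast Real.pi_ne_zero
  have h5 : (2 * Real.pi * I)⁻¹ * (ℓ : ℂ)⁻¹ * sqI (fun Z => f (1 + Z / ℓ)) =
      ((2 * Real.pi : ℝ) : ℂ)⁻¹ * ((∫ t : ℝ, f (2 + t * I)) - ∫ t : ℝ, f (3 / 4 + t * I)) := by
    rw [mul_assoc, hsq, ← hfin]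
    push_cast
    field_simp
  rw [h5]
  ring

end Pool.Agent.Lib.MP_6bc78b_nt.MS.P3.H62
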